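import Pool.Agent.Z701.Union

/-!
# The determinant and the matrix over `𝔽₂`
-/

set_option autoImplicit false
set_option linter.style.haveILetI false

open Finset

namespace Pool.Agent.Y17.N

open Pool.Agent.Z700 (pr Yd lres)
open Pool.Agent.Z701 (lres_iff)

open Classical in
/-- the matrix over `𝔽₂` with diagonal part given by a condition -/
noncomputable def matC (P : Finset ℕ) (c : ℕ → Prop) : Matrix P P (ZMod 2) := Matrix.of fun i j =>
  if i = j then
    (((P.filter fun p' : ℕ => p' ≠ (i : ℕ) ∧ ¬ IsSquare (p' : ZMod (i : ℕ))).card : ZMod 2) +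
      if c (i : ℕ) then 0 else 1)
  else if IsSquare (((j : ℕ)) : ZMod (i : ℕ)) then 0 else 1

theorem matC_iff {P : Finset ℕ} (hP : ∀ p ∈ P, Pool.Agent.Z701.Sp p) {c : ℕ → Prop} {x : ℕ → ℤ}
    (hx : ∀ p ∈ P, (Odd (x p) ↔ ¬ c p)) : (matC P c).det ≠ 0 ↔ Odd (Yd lres x P) := by
  classical
  have h2 : ∀ z : ℤ, Odd z ↔ (z : ZMod 2) ≠ 0 := by
    intro z
    rw [← Int.not_even_iff_odd, ← ZMod.intCast_eq_zero_iff_even]
  have h1 : ∀ z : ZMod 2, z ≠ 0 → z = 1 := by decide
  rw [h2]
  have h3 : ((Yd lres x P : ℤ) : ZMod 2) = (matC P c).det := by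
    unfold Yd
    have e1 := fun M : Matrix P P ℤ => (Int.castRingHom (ZMod 2)).map_det M
    simp only [eq_intCast] at e1
    rw [e1]
    congr 1
    ext i j
    have hi := hP i.1 i.2
    have i4 : (i : ℕ) % 4 = 1 := by have := hi.2.1; omega
    simp only [RingHom.mapMatrix_apply, Matrix.map_apply, Matrix.of_apply, eq_intCast, matC]
    by_cases hij : i = j
    · rw [if_pos hij, if_pos hij]
      push_cast
      have e2 : (∑ k ∈ P.erase i.1, ((lres i.1 k : ℤ) : ZMod 2)) =
          ((P.filter fun p' : ℕ => p' ≠ (i : ℕ) ∧ ¬ IsSquare (p' : ZMod (i : ℕ))).card :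
            ZMod 2) := by
        rw [Finset.card_filter]
        push_cast
        rw [← Finset.sum_erase (s := P) (a := i.1)]
        · refine Finset.sum_congr rfl fun k hk => ?_
          obtain ⟨hk1, hk2⟩ := Finset.mem_erase.1 hk
          have hkk := hP k hk2
          rcases lres_iff hi.1 hkk.1 (Ne.symm hk1) i4 (by have := hkk.2.1; omega) with
            ⟨a, b⟩ | ⟨a, b⟩
          · rw [a, if_pos ⟨hk1, b⟩]; norm_num
          · rw [a, if_neg (fun h => h.2 b)]; norm_num
        · rw [if_neg (fun h => h.1 rfl)]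
      rw [e2]
      congr 1
      have e3 := hx i.1 i.2
      rw [h2] at e3
      by_cases hc : c i.1
      · rw [if_pos hc]
        by_contra h
        exact (e3.1 h) hc
      · rw [if_neg hc]
        exact h1 _ (e3.2 hc)
    · rw [if_neg hij, if_neg hij]
      have hj := hP j.1 j.2
      have hne : (i : ℕ) ≠ j := fun h => hij (Subtype.ext h)
      rcases lres_iff hi.1 hj.1 hne i4 (by have := hj.2.1; omega) with ⟨a, b⟩ | ⟨a, b⟩
      · rw [a, if_neg b]; decide
      · rw [a, if_pos b]; norm_num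
  rw [h3]

end Pool.Agent.Y17.N
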