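import Pool.Agent.Y17.N.Defs3

/-!
# The bilinear identity and its consequence for `n1 = n2`
-/

set_option autoImplicit false

namespace Pool.Agent.Y17.N

open Finset

open scoped Matrix
open Pool.Agent.Z700 (V3 vec cp cp7 Ln n0 ep sgl)

theorem mem_vec' {n : ℤ} {v : V3} (h : v ∈ vec n) : v ⬝ᵥ v = n := by
  unfold Pool.Agent.Z700.vec at h
  exact (Finset.mem_filter.1 h).2

theorem cs {v w : V3} {a b : ℤ} (hv : v ⬝ᵥ v = a) (hw : w ⬝ᵥ w = b) : (v ⬝ᵥ w) ^ 2 ≤ a * b := by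
  simp only [dotProduct, Fin.sum_univ_three] at *
  subst hv hw
  nlinarith [sq_nonneg (v 0 * w 1 - v 1 * w 0), sq_nonneg (v 0 * w 2 - v 2 * w 0),
    sq_nonneg (v 1 * w 2 - v 2 * w 1)]

/-- the inner products which occur -/
noncomputable def BB (n1 n2 : ℕ) (r : ZMod 7) (ε : ℤ) : Finset ℤ :=
  (Ioo (-((n1 : ℤ) * n2)) ((n1 : ℤ) * n2)).filter fun b : ℤ =>
    (4 : ℤ) ∣ b - ε ∧ (b : ZMod 7) = r ∧ b ^ 2 < (n1 : ℤ) * n2

theorem t_BIL (h1 : S_PR) (h2 : S_LB) (h3 : S_C7) : S_BIL := by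
  classical
  intro n1 n2 hsq h18 h28 β1 β2 hb1 hb2 hr1 hr2 ε hε hno
  have k1 := h1 (n1 : ℤ) (n2 : ℤ) (by omega) (by omega) β1 β2 hb1 hb2 ε hε
  have hr1' : β1 ^ 2 = -(((n1 : ℤ) : ZMod 7)) := by rw [hr1]; push_cast; rfl
  have hr2' : β2 ^ 2 = -(((n2 : ℤ) : ZMod 7)) := by rw [hr2]; push_cast; rfl
  have k2 := h2 (n1 : ℤ) (n2 : ℤ) β1 β2 hb1 hb2 hr1' hr2'
  set F := (PL (n1 : ℤ) (n2 : ℤ) β1 β2).filter fun q => (4 : ℤ) ∣ q.1 ⬝ᵥ q.2 - ε with hF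
  have hmap : ∀ q ∈ F, q.1 ⬝ᵥ q.2 ∈ BB n1 n2 (-(β1 * β2)) ε := by
    intro q hq
    rw [hF, Finset.mem_filter] at hq
    obtain ⟨hq1, hq2⟩ := hq
    have hq3 := hq1
    unfold PL at hq3
    rw [Finset.mem_filter, Finset.mem_product] at hq3
    obtain ⟨⟨hv, hw⟩, -⟩ := hq3
    have hcs := cs (mem_vec' hv) (mem_vec' hw)
    have h7 : ((q.1 ⬝ᵥ q.2 : ℤ) : ZMod 7) = -(β1 * β2) := by
      by_contra hne
      have k3 := k2 (q.1 ⬝ᵥ q.2)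
      rw [if_neg hne] at k3
      have k4 : ((PL (n1 : ℤ) (n2 : ℤ) β1 β2).filter fun q' => q'.1 ⬝ᵥ q'.2 = q.1 ⬝ᵥ q.2).card = 0 := by
        omega
      rw [Finset.card_eq_zero] at k4
      have k5 : q ∈ ((PL (n1 : ℤ) (n2 : ℤ) β1 β2).filter fun q' => q'.1 ⬝ᵥ q'.2 = q.1 ⬝ᵥ q.2) :=
        Finset.mem_filter.2 ⟨hq1, rfl⟩
      rw [k4] at k5
      exact absurd k5 (Finset.notMem_empty _)
    have hlt : (q.1 ⬝ᵥ q.2) ^ 2 < (n1 : ℤ) * n2 := lt_of_le_of_ne hcs (hno _ hq2 h7)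
    unfold BB
    rw [Finset.mem_filter, Finset.mem_Ioo]
    refine ⟨⟨?_, ?_⟩, hq2, h7, hlt⟩
    · nlinarith
    · nlinarith
  have k3 := Finset.card_eq_sum_card_fiberwise (s := F) (t := BB n1 n2 (-(β1 * β2)) ε)
    (f := fun q => q.1 ⬝ᵥ q.2) hmap
  have k4 : ∀ b ∈ BB n1 n2 (-(β1 * β2)) ε, (((F.filter fun q => q.1 ⬝ᵥ q.2 = b).card : ℕ) : ℤ) =
      24 * Pool.Agent.Z700.loc n1 ((n1 : ℤ) * n2 - b ^ 2).toNat := by
    intro b hb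
    unfold BB at hb
    rw [Finset.mem_filter, Finset.mem_Ioo] at hb
    obtain ⟨-, hb4, hb7, hblt⟩ := hb
    have e1 : (F.filter fun q => q.1 ⬝ᵥ q.2 = b) =
        (PL (n1 : ℤ) (n2 : ℤ) β1 β2).filter fun q => q.1 ⬝ᵥ q.2 = b := by
      rw [hF]
      ext q
      simp only [Finset.mem_filter]
      constructor
      · rintro ⟨⟨a1, -⟩, a3⟩
        exact ⟨a1, a3⟩
      · rintro ⟨a1, a3⟩
        exact ⟨⟨a1, by rw [a3]; exact hb4⟩, a3⟩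
    rw [e1]
    have k5 := k2 b
    rw [if_pos hb7] at k5
    have hodd : Odd b := by
      rcases hε with rfl | rfl
      · exact Int.odd_iff.2 (by omega)
      · exact Int.odd_iff.2 (by omega)
    have k6 := h3 n1 n2 hsq h18 h28 β1 β2 hb1 hb2 hr1 hr2 b hodd hb7 hblt
    have k7 : (2 : ℤ) * (((PL (n1 : ℤ) (n2 : ℤ) β1 β2).filter fun q => q.1 ⬝ᵥ q.2 = b).card : ℤ) =
        ((cp (n1 : ℤ) b (n2 : ℤ) + cp7 (n1 : ℤ) b (n2 : ℤ) β1 β2 : ℕ) : ℤ) := by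
      rw [← k5]; push_cast; ring
    rw [k6] at k7
    linarith
  have k8 : ((F.card : ℕ) : ℤ) = 24 * SB n1 n2 (-(β1 * β2)) ε := by
    rw [k3]
    push_cast
    rw [Finset.sum_congr rfl k4, ← Finset.mul_sum]
    rfl
  rw [k1] at k8
  linarith

end Pool.Agent.Y17.N
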