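import Pool.Agent.Y17.N.Defs

/-!
# Twists of `X_0(14)` by `- q m`: all split primes

The statements which give the parity of the unweighted sums for arbitrary split primes `p = 1 mod 8`
(in `Defs.lean` the primes of the base case `q = 3` are `= 1 mod 24`).
-/

set_option autoImplicit false

namespace Pool.Agent.Y17.N

open Finset Matrix
open Pool.Agent.Z700 (V3 vec fac pr Ln n0 ep sgl X2 Yd lres xres sq7 od KerT)

noncomputable section

/-- T8: all vectors and the vectors on one line -/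
def S_T8 : Prop := ∀ N : ℤ, N % 8 = 3 → ∀ β : ZMod 7, β ≠ 0 → β ^ 2 = -(N : ZMod 7) →
  ((vec N).card : ℤ) = 8 * t0 N β

/-- HALF: the number of vectors of norm `n = 3 mod 8` (Gauss, Dirichlet) -/
def S_HALF : Prop := ∀ n : ℕ, Squarefree n → n % 8 = 3 →
  ((vec n).card : ℤ) = 8 * ∑ u ∈ (range n).filter (fun u => 2 * u < n), jacobiSym u n

/-- LEAF: a relation between the determinants -/
def S_LEAF : Prop := ∀ (l : ℕ → ℕ → ℤ) (e : ℕ → ℤ) (P : Finset ℕ), P.Nonempty →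
  Even (∑ S ∈ P.powerset, Yd l e S * ∏ p ∈ P \ S, (e p + ∑ s ∈ S, l p s))

/-- RHQ: the parity of the class number -/
def S_RHQ : Prop := ∀ (q : ℕ) (P : Finset ℕ), Qr q → (∀ p ∈ P, Sp p) →
  ∃ h : ℤ, ((vec ((q * pr P : ℕ) : ℤ)).card : ℤ) = 8 * 2 ^ P.card * h ∧
    (Odd h ↔ Odd (Yd lres (eQ q) P))

/-- GENb3: the sum over all factorizations for a fixed `b`, norms `3 pr D1`, `3 pr D2` -/
def S_GENb3 : Prop := ∀ P : Finset ℕ, (∀ p ∈ P, Sp p) → P.Nonempty → ∀ b : ℤ, Odd b →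
  ∀ D : ℕ, 0 < D → (D : ℤ) = 9 * (pr P : ℤ) - b ^ 2 → Odd (D.factorization 2) →
  ∃ n : ℤ, ∑ D1 ∈ P.powerset, ∏ l ∈ (D.primeFactors.erase 2).erase 7, fac (3 * pr D1) D l =
      2 ^ P.card * n ∧
    (Odd (D.factorization 7) →
      (Odd n ↔ (¬ (3 : ℤ) ∣ b ∧ ∃ y : ℕ, od D = y ^ 2 ∧ ∀ p ∈ P, jacobiSym y p = 1)))

open Classical in
/-- the representations of `9 m` by `b² + 14 y²` which remain -/
def FixT (P : Finset ℕ) : Finset ℤ :=
  (Ioo (-(9 * (pr P : ℤ))) (9 * (pr P : ℤ))).filter fun b : ℤ =>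
    b % 4 = 1 ∧ (b : ZMod 7) = -(2 * bq 3 P) ∧ ¬ (3 : ℤ) ∣ b ∧
    ∃ y ∈ range (9 * pr P), 9 * (pr P : ℤ) = b ^ 2 + 14 * (y : ℤ) ^ 2 ∧ ∀ p ∈ P, jacobiSym y p = 1

/-- GEN3: the sum over all factorizations -/
def S_GEN3 : Prop := ∀ P : Finset ℕ, (∀ p ∈ P, Sp p) → P.Nonempty → ∃ N : ℤ,
  ∑ D1 ∈ P.powerset, SB (3 * pr D1) (3 * pr (P \ D1)) (-(2 * bq 3 P)) 1 = 2 ^ P.card * N ∧
  (Odd N ↔ Odd (FixT P).card)

open Classical in
/-- FIXT: the parity of the number of remaining representations -/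
def S_FIXT : Prop := ∀ P : Finset ℕ, (∀ p ∈ P, Sp p) → P.Nonempty →
  (Odd (FixT P).card ↔ (Odd (P.filter fun p => X2 p).card ∧ KerT P))

/-- IND3S: the parity of the unweighted sums for `q = 3`, all split primes -/
def S_IND3S : Prop := ∀ P : Finset ℕ, (∀ p ∈ P, Sp p) →
  ∃ y : ℤ, g0 ((3 * pr P : ℕ) : ℤ) (bq 3 P) = 2 ^ P.card * y ∧
    (Odd y ↔ Odd (Yd lres (fun p => xres p + eQ 3 p) P))

/-- INDQS: the parity of the unweighted sums, all `q` and all split primes -/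
def S_INDQS : Prop := ∀ (q : ℕ) (P : Finset ℕ), Qr q → (∀ p ∈ P, Sp p) →
  ∃ y : ℤ, g0 ((q * pr P : ℕ) : ℤ) (bq q P) = 2 ^ P.card * y ∧
    (Odd y ↔ Odd (Yd lres (fun p => xres p + eQ q p) P))

end

end Pool.Agent.Y17.N
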