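import Pool.Agent.Z700.Defs

/-!
# Twists of `X_0(14)` by `- q m`: definitions and statements

Project Z17N, the negative family. `P` is a finite set of split primes (`Sp`), `m = pr P` its product
and `q` is a prime `= 3 mod 8` which is not a square modulo `7` (`Qr`). The definite side counts the
vectors of `ℤ³` of norm `n = q m` (without weights, only with the orientation `ep`), the indefinite
side consists of binary quadratic forms of discriminant `1` and `9`.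
-/

set_option autoImplicit false

namespace Pool.Agent.Y17.N

open Finset Matrix
open Pool.Agent.Z700 (V3 vec cp cp7 fac pr Ln n0 ep sgl X2 Yd lres xres chi3 chv Fam sq7 be pii wt
  dis od un psp)

noncomputable section

/-- the split primes -/
def Sp (p : ℕ) : Prop := p.Prime ∧ p % 8 = 1 ∧ (p % 7 = 1 ∨ p % 7 = 2 ∨ p % 7 = 4)

/-- the primes `q` -/
def Qr (q : ℕ) : Prop := q.Prime ∧ q % 8 = 3 ∧ (q % 7 = 3 ∨ q % 7 = 5 ∨ q % 7 = 6)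

/-- a square root of `- q` modulo `7` -/
def cq (q : ℕ) : ZMod 7 := if q % 7 = 3 then 2 else if q % 7 = 5 then 3 else 1

/-- a square root of `- q pr D` modulo `7` -/
def bq (q : ℕ) (D : Finset ℕ) : ZMod 7 := cq q * ∏ p ∈ D, sq7 p

/-- the unweighted Gross sum: the vectors of norm `N` on the line `n0`, with orientation -/
def g0 (N : ℤ) (β : ZMod 7) : ℤ := ∑ v ∈ (vec N).filter fun v => Ln n0 β v, ep v

/-- the number of vectors of norm `N` on the line `n0` -/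
def t0 (N : ℤ) (β : ZMod 7) : ℤ := (((vec N).filter fun v => Ln n0 β v).card : ℤ)

/-! ### pairs of vectors -/

/-- ORI: dependence on the line and the orientation -/
def S_ORI : Prop := ∀ N : ℤ, N % 8 = 3 → ∀ β : ZMod 7, β ≠ 0 → ∀ n : Fin 3 → ZMod 7, n ≠ 0 →
  n 0 ^ 2 + n 1 ^ 2 + n 2 ^ 2 = 0 → ∀ ε : ℤ, (ε = 1 ∨ ε = -1) →
  2 * (((vec N).filter fun v => Ln n β v ∧ ep v = ε).card : ℤ) = t0 N β + sgl n * ε * g0 N β

/-- the pairs with a common line -/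
def PL (N1 N2 : ℤ) (β1 β2 : ZMod 7) : Finset (V3 × V3) := (vec N1 ×ˢ vec N2).filter fun q =>
  ∃ n : Fin 3 → ZMod 7, n ≠ 0 ∧ Ln n β1 q.1 ∧ Ln n β2 q.2

/-- PR: the pairs with a common line and inner product `= ε mod 4` -/
def S_PR : Prop := ∀ N1 N2 : ℤ, N1 % 8 = 3 → N2 % 8 = 3 → ∀ β1 β2 : ZMod 7, β1 ≠ 0 → β2 ≠ 0 →
  ∀ ε : ℤ, (ε = 1 ∨ ε = -1) →
  (((PL N1 N2 β1 β2).filter fun q => (4 : ℤ) ∣ q.1 ⬝ᵥ q.2 - ε).card : ℤ) =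
    4 * (t0 N1 β1 * t0 N2 β2 - ε * (g0 N1 β1 * g0 N2 β2))

/-- LB: the pairs with a common line and a given inner product -/
def S_LB : Prop := ∀ N1 N2 : ℤ, ∀ β1 β2 : ZMod 7, β1 ≠ 0 → β2 ≠ 0 → β1 ^ 2 = -(N1 : ZMod 7) →
  β2 ^ 2 = -(N2 : ZMod 7) → ∀ b : ℤ,
  2 * ((PL N1 N2 β1 β2).filter fun q => q.1 ⬝ᵥ q.2 = b).card =
    if (b : ZMod 7) = -(β1 * β2) then cp N1 b N2 + cp7 N1 b N2 β1 β2 else 0

/-- C7: evaluation of the counts -/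
def S_C7 : Prop := ∀ n1 n2 : ℕ, Squarefree n1 → n1 % 8 = 3 → n2 % 8 = 3 → ∀ β1 β2 : ZMod 7,
  β1 ≠ 0 → β2 ≠ 0 → β1 ^ 2 = -(n1 : ZMod 7) → β2 ^ 2 = -(n2 : ZMod 7) → ∀ b : ℤ, Odd b →
  (b : ZMod 7) = -(β1 * β2) → b ^ 2 < n1 * n2 →
  ((cp n1 b n2 + cp7 n1 b n2 β1 β2 : ℕ) : ℤ) =
    48 * Pool.Agent.Z700.loc n1 ((n1 : ℤ) * n2 - b ^ 2).toNat

/-- the arithmetic side: inner products `b = ε mod 4`, `b = r mod 7` -/
def SB (n1 n2 : ℕ) (r : ZMod 7) (ε : ℤ) : ℤ :=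
  ∑ b ∈ (Ioo (-((n1 : ℤ) * n2)) ((n1 : ℤ) * n2)).filter fun b : ℤ =>
    (4 : ℤ) ∣ b - ε ∧ (b : ZMod 7) = r ∧ b ^ 2 < (n1 : ℤ) * n2,
    Pool.Agent.Z700.loc n1 ((n1 : ℤ) * n2 - b ^ 2).toNat

/-- the bilinear identity -/
def S_BIL : Prop := ∀ n1 n2 : ℕ, Squarefree n1 → n1 % 8 = 3 → n2 % 8 = 3 → ∀ β1 β2 : ZMod 7,
  β1 ≠ 0 → β2 ≠ 0 → β1 ^ 2 = -(n1 : ZMod 7) → β2 ^ 2 = -(n2 : ZMod 7) →
  ∀ ε : ℤ, (ε = 1 ∨ ε = -1) →
  (∀ b : ℤ, (4 : ℤ) ∣ b - ε → (b : ZMod 7) = -(β1 * β2) → b ^ 2 ≠ (n1 : ℤ) * n2) →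
  t0 n1 β1 * t0 n2 β2 - ε * (g0 n1 β1 * g0 n2 β2) = 6 * SB n1 n2 (-(β1 * β2)) ε

/-- H3: the Hecke operator at `3` -/
def S_H3 : Prop := ∀ n : ℕ, n % 8 = 3 → ¬ 9 ∣ n → ∀ β : ZMod 7, β ≠ 0 →
  t0 ((9 * n : ℕ) : ℤ) (3 * β) = (4 - jacobiSym (-(n : ℤ)) 3) * t0 n β ∧
  g0 ((9 * n : ℕ) : ℤ) (3 * β) = (2 + jacobiSym (-(n : ℤ)) 3) * g0 n β

/-! ### the symbol -/

/-- the number of forms `A x² + B x y + C y²` of discriminant `d²`, `14 ∣ A`, `B = r mod 28`,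
changing sign between `∞` and `x / M` (from positive to negative) -/
def Fs (d r : ℤ) (x M : ℤ) : ℤ := ∑ᶠ f : ℤ × ℤ × ℤ,
  if f.2.1 ^ 2 - 4 * f.1 * f.2.2 = d ^ 2 ∧ (14 : ℤ) ∣ f.1 ∧ f.2.1 % 28 = r ∧ 0 < f.1 ∧
    f.1 * x ^ 2 + f.2.1 * x * M + f.2.2 * M ^ 2 < 0 then 1 else 0

/-- the explicit odd modular symbol -/
def Gm (x M : ℤ) : ℤ := (Fs 3 17 x M - Fs 3 11 x M) - 3 * (Fs 1 15 x M - Fs 1 13 x M)

/-- odd modular symbols for `Γ_0(14)` with the Hecke eigenvalues of `X_0(14)` -/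
structure SymN (s : ℚ → ℤ) (a : ℕ → ℤ) : Prop where
  per : ∀ x, s (x + 1) = s x
  odd : ∀ x, s (-x) = - s x
  hecke : ∀ q : ℕ, q.Prime → ¬ q ∣ 14 → ∀ x,
    a q * s x = s (q * x) + ∑ b ∈ Finset.range q, s ((x + b) / q)
  aff : ∀ {A B C' D : ℤ}, A * D - B * (14 * C') = 1 → ∀ {x c : ℤ}, IsCoprime (14 * x) c →
    s (((A * x + B * c : ℤ) : ℚ) / ((14 * C' * x + D * c : ℤ) : ℚ)) =
      s ((x : ℚ) / c) + s ((B : ℚ) / D)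
  inv : ∀ (M : ℕ) (b d : ℤ), 0 < M → (M : ℤ) ∣ 14 * b * d - 1 →
    s ((b : ℚ) / M) = - s ((d : ℚ) / M)
  a3 : a 3 = -2
  a5 : a 5 = 0

/-- SYMN: the explicit formula -/
def S_SYMN : Prop := ∀ (s : ℚ → ℤ) (a : ℕ → ℤ), SymN s a → ∀ x M : ℤ, 0 < M →
  IsCoprime (14 * x) M → s ((x : ℚ) / M) = s (1 / 3) * Gm x M

/-- the sum over the factorizations and the cusps -/
def MC (d n : ℕ) : ℤ := ∑ T ∈ (range (d * n)).filter (fun T => Odd T ∧ 7 ∣ T),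
  ∑ a ∈ (d * n - T).divisors.filter (2 ∣ ·), ∑ a' ∈ T.divisors.filter (7 ∣ ·),
    ∑ u ∈ (un n).filter (fun u : ℕ => (n : ℤ) ∣ (a : ℤ) * (u : ℤ) + ((T / a' : ℕ) : ℤ) ∧
      (n : ℤ) ∣ (a' : ℤ) * (u : ℤ) - (((d * n - T) / a : ℕ) : ℤ)), jacobiSym u n

/-- C1A: forms of discriminant `1` -/
def S_C1A : Prop := ∀ (q : ℕ) (P : Finset ℕ), Qr q → (∀ p ∈ P, Sp p) →
  ∑ u ∈ un (q * pr P), jacobiSym u (q * pr P) *
    (Fs 1 15 u ((q * pr P : ℕ) : ℤ) - Fs 1 13 u ((q * pr P : ℕ) : ℤ)) = 2 * MC 1 (q * pr P)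

/-- C1A3: forms of discriminant `9` -/
def S_C1A3 : Prop := ∀ (q : ℕ) (P : Finset ℕ), Qr q → (∀ p ∈ P, Sp p) →
  ∑ u ∈ un (q * pr P), jacobiSym u (q * pr P) *
    (Fs 3 17 u ((q * pr P : ℕ) : ℤ) - Fs 3 11 u ((q * pr P : ℕ) : ℤ)) =
      2 * (MC 3 (q * pr P) - MC 1 (q * pr P))

/-- the local weight at `q` -/
def psq (q a a' Y X : ℕ) : ℤ := if q ∣ a ∧ q ∣ X then jacobiSym ((a' * Y : ℕ) : ℤ) q
  else - jacobiSym ((a * X : ℕ) : ℤ) q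

/-- C1B: the character sum over the cusps for a given matrix of determinant `d q m` -/
def S_C1B : Prop := ∀ (q : ℕ) (P : Finset ℕ), Qr q → (∀ p ∈ P, Sp p) → ∀ d : ℕ,
  Nat.Coprime d (q * pr P) → ∀ a a' X Y : ℕ, a * Y + a' * X = d * (q * pr P) →
  ∑ u ∈ (un (q * pr P)).filter (fun u : ℕ => ((q * pr P : ℕ) : ℤ) ∣ (a : ℤ) * (u : ℤ) + (X : ℤ) ∧
    ((q * pr P : ℕ) : ℤ) ∣ (a' : ℤ) * (u : ℤ) - (Y : ℤ)), jacobiSym u (q * pr P) =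
      psq q a a' Y X * ∏ p ∈ P, psp p a a' Y X

/-- the divisor sum of the indefinite side -/
def WN (d q : ℕ) (P : Finset ℕ) (T : ℕ) : ℤ :=
  ∑ a ∈ (d * (q * pr P) - T).divisors.filter (2 ∣ ·), ∑ a' ∈ T.divisors.filter (7 ∣ ·),
    psq q a a' ((d * (q * pr P) - T) / a) (T / a') *
      ∏ p ∈ P, psp p a a' ((d * (q * pr P) - T) / a) (T / a')

/-- C2: evaluation of the divisor sums, `d = 1` -/
def S_C2 : Prop := ∀ (q : ℕ) (P : Finset ℕ), Qr q → (∀ p ∈ P, Sp p) → ∀ T : ℕ, Odd T → 7 ∣ T →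
  T < q * pr P → WN 1 q P T =
    Pool.Agent.Z700.loc (q * pr P) (4 * (q * pr P - T) * T)

/-- C23: evaluation of the divisor sums, `d = 3` -/
def S_C23 : Prop := ∀ (q : ℕ) (P : Finset ℕ), Qr q → q ≠ 3 → (∀ p ∈ P, Sp p) → ∀ T : ℕ, Odd T →
  7 ∣ T → T < 3 * (q * pr P) → WN 3 q P T =
    Pool.Agent.Z700.loc (q * pr P) (4 * (3 * (q * pr P) - T) * T) +
      if 3 ∣ T then jacobiSym 3 (q * pr P) *
        Pool.Agent.Z700.loc (q * pr P) (4 * (q * pr P - T / 3) * (T / 3)) else 0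

/-- DIAG: the twisted sum of the explicit symbol is twice a square -/
def S_DIAG : Prop := ∀ (q : ℕ) (P : Finset ℕ), Qr q → q ≠ 3 → (∀ p ∈ P, Sp p) →
  ∑ u ∈ un (q * pr P), jacobiSym u (q * pr P) * Gm u ((q * pr P : ℕ) : ℤ) =
    2 * g0 ((q * pr P : ℕ) : ℤ) (bq q P) ^ 2

/-! ### parity, the case `q = 3` -/

/-- the sum of the local densities over `b = c mod 4` for two vectors of norms `3 pr D1`,
`3 pr D2`, with a weight -/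
def RG (w : ℤ → ℤ) (D1 D2 : Finset ℕ) (c : ℤ) : ℤ :=
  ∑ b ∈ (Ioo (-(9 * (pr D1 : ℤ) * (pr D2 : ℤ))) (9 * (pr D1 : ℤ) * (pr D2 : ℤ))).filter fun b : ℤ =>
    b % 4 = c ∧ (b : ZMod 7) = -(be D1 * be D2) ∧ 0 < dis D1 D2 b,
    w b * Pool.Agent.Z700.loc (3 * pr D1) (dis D1 D2 b)

/-- BIL3: the bilinear identity for the weighted sums, inner products `3 mod 4` -/
def S_BIL3 : Prop := ∀ P : Finset ℕ, (∀ p ∈ P, Fam p) → ∀ D1 ⊆ P, ∀ D2 ⊆ P,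
  (Disjoint D1 D2 ∨ D1 = D2) → (D1.Nonempty ∨ D2.Nonempty) → D1 ≠ D2 →
  pii D1 * pii D2 = 6 * RG wt D1 D2 3

/-- STAR: comparison of the weighted and the unweighted sums -/
def S_STAR : Prop := ∀ P : Finset ℕ, (∀ p ∈ P, Fam p) → P.Nonempty → ∃ N : ℤ,
  ∑ D1 ∈ P.powerset, (RG (fun b => 1 - wt b) D1 (P \ D1) 3 - RG (fun b => 1 + wt b) D1 (P \ D1) 1)
    = 2 ^ (P.card + 2) * N

open Classical in
/-- the representations of `9 m` by `b² + 14 y²` which remain -/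
def FixV (P : Finset ℕ) : Finset ℤ :=
  (Ioo (-(9 * (pr P : ℤ))) (9 * (pr P : ℤ))).filter fun b : ℤ =>
    (b % 12 = 5 ∨ b % 12 = 7) ∧ (b : ZMod 7) = -(2 * be P) ∧
    ∃ y ∈ range (9 * pr P), 9 * (pr P : ℤ) = b ^ 2 + 14 * (y : ℤ) ^ 2 ∧ ∀ p ∈ P, jacobiSym y p = 1

/-- INVO: the number of these representations is even -/
def S_INVO : Prop := ∀ P : Finset ℕ, (∀ p ∈ P, Fam p) → P.Nonempty → Even (FixV P).card

/-- IND3: the parity of the unweighted sums for `q = 3` -/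
def S_IND3 : Prop := ∀ P : Finset ℕ, (∀ p ∈ P, Fam p) → P.Nonempty →
  ∃ y : ℤ, g0 (3 * (pr P : ℤ)) (be P) = 3 * 2 ^ P.card * y ∧ (Odd y ↔ Odd (Yd lres xres P))

/-! ### parity, general `q` -/

/-- GENbQ: the sum over all factorizations for a fixed `b` -/
def S_GENbQ : Prop := ∀ (q : ℕ) (P : Finset ℕ), Qr q → q ≠ 3 → (∀ p ∈ P, Sp p) → ∀ b : ℤ, Odd b →
  ∀ D : ℕ, 0 < D → (D : ℤ) = 3 * (q : ℤ) * (pr P : ℤ) - b ^ 2 → Odd (D.factorization 2) →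
  ∃ n : ℤ, ∑ D1 ∈ P.powerset, ∏ l ∈ (D.primeFactors.erase 2).erase 7, fac (q * pr D1) D l =
      2 ^ P.card * n ∧
    (Odd (D.factorization 7) →
      (Odd n ↔ ∃ y : ℕ, od D = y ^ 2 ∧ ∀ p ∈ P, jacobiSym y p = 1))

open Classical in
/-- the representations of `3 q m` by `b² + 14 y²` which remain -/
def FixQ (q : ℕ) (P : Finset ℕ) : Finset ℤ :=
  (Ioo (-(3 * (q : ℤ) * (pr P : ℤ))) (3 * (q : ℤ) * (pr P : ℤ))).filter fun b : ℤ =>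
    (b : ZMod 7) = -(2 * bq q P) ∧
    ∃ y ∈ range (3 * q * pr P), 3 * (q : ℤ) * (pr P : ℤ) = b ^ 2 + 14 * (y : ℤ) ^ 2 ∧
      ∀ p ∈ P, jacobiSym y p = 1

/-- GENQ: the sum over all factorizations -/
def S_GENQ : Prop := ∀ (q : ℕ) (P : Finset ℕ), Qr q → q ≠ 3 → (∀ p ∈ P, Sp p) → ∃ N : ℤ,
  ∑ D1 ∈ P.powerset, (SB (q * pr D1) (3 * pr (P \ D1)) (-(2 * bq q P)) (-1) -
    SB (q * pr D1) (3 * pr (P \ D1)) (-(2 * bq q P)) 1) = 2 ^ P.card * N ∧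
  (Odd N ↔ Odd (FixQ q P).card)

/-- the normalized representations of `3 q m` by `b² + 14 y²` -/
def SolQ (q : ℕ) (P : Finset ℕ) : Set (ℤ × ℤ) := {s |
  3 * (q : ℤ) * (pr P : ℤ) = s.1 ^ 2 + 14 * s.2 ^ 2 ∧ s.1 % 4 = 1 ∧ (3 : ℤ) ∣ s.2 - s.1}

/-- SQA: existence of representations -/
def S_SQA : Prop := ∀ (q : ℕ) (P : Finset ℕ), Qr q → q ≠ 3 → (∀ p ∈ P, Sp p) → (SolQ q P).Nonempty

/-- SQB: the flips -/
def S_SQB : Prop := ∀ (q : ℕ) (P : Finset ℕ), Qr q → q ≠ 3 → (∀ p ∈ P, Sp p) → ∀ p ∈ P,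
  ∀ s ∈ SolQ q P, ∃ s' ∈ SolQ q P, (p : ℤ) ∣ s.1 * s'.2 + s'.1 * s.2 ∧
    (∀ r ∈ P, r ≠ p → (r : ℤ) ∣ s.1 * s'.2 - s'.1 * s.2) ∧
    (∀ r ∈ P, r ≠ p → jacobiSym s'.2 r = jacobiSym p r * jacobiSym s.2 r) ∧
    jacobiSym s'.2 p = jacobiSym s.2 p * jacobiSym (3 * q * pr (P.erase p) : ℕ) p

/-- SQC: a representation is determined by the roots of `-14` it defines at the split primes -/
def S_SQC : Prop := ∀ (q : ℕ) (P : Finset ℕ), Qr q → q ≠ 3 → (∀ p ∈ P, Sp p) → ∀ s ∈ SolQ q P,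
  ∀ s' ∈ SolQ q P, (∀ p ∈ P, (p : ℤ) ∣ s.1 * s'.2 - s'.1 * s.2) → s = s'

/-- the diagonal part coming from `q` -/
def eQ (q p : ℕ) : ℤ := if jacobiSym q p = -1 then 1 else 0

/-- FIXQ: the parity of the number of remaining representations -/
def S_FIXQ : Prop := ∀ (q : ℕ) (P : Finset ℕ), Qr q → q ≠ 3 → (∀ p ∈ P, Sp p) →
  (Odd (FixQ q P).card ↔ Odd (Yd lres (fun p => eQ q p + eQ 3 p) P))

/-- the parity of the unweighted sums (for the primes of the family `Fam`) -/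
def S_INDQ : Prop := ∀ (q : ℕ) (P : Finset ℕ), Qr q → q ≠ 3 → (∀ p ∈ P, Fam p) →
  ∃ y : ℤ, g0 ((q * pr P : ℕ) : ℤ) (bq q P) = 3 * 2 ^ P.card * y ∧
    (Odd y ↔ Odd (Yd lres (fun p => xres p + eQ q p) P))

end

end Pool.Agent.Y17.N
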