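import Pool.Agent.Y17.N.Main
import Pool.Agent.Y17.N.Bil
import Pool.Agent.Y441.ZN.PR
import Pool.Agent.Y153.ZN.LB
import Pool.Agent.Y574.N.C7
import Pool.Agent.Z700.Fin
import Pool.Agent.Y655.Z17N.T8
import Pool.Agent.Y655.Z17N.Half
import Pool.Agent.Y655.N3.Ind3s
import Pool.Agent.Y67.N.LEAF
import Pool.Agent.Y434.N.Rhq
import Pool.Agent.Y98.ZN.GENb3
import Pool.Agent.Y614.Z17.Gen3
import Pool.Agent.Y961.BS.Fix3
import Pool.Agent.Y349.ZN.SQ2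
import Pool.Agent.Y100.Z17N.Sqac
import Pool.Agent.Z125.N.GENb
import Pool.Agent.Z125.N.Gen
import Pool.Agent.Y929.NQ.Indqs

/-!
# Twists of `X_0(14)` by `- q m`: the parts

Collection of the parts of the proof.
-/

set_option autoImplicit false

namespace Pool.Agent.Y17.N

theorem f_ORI : S_ORI := Pool.Agent.Y441.ZN.t_ORI
theorem f_PR : S_PR := Pool.Agent.Y441.ZN.t_PR f_ORI
theorem f_LB : S_LB := Pool.Agent.Y153.ZN.t_LB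
theorem f_C7 : S_C7 := Pool.Agent.Y574.N.t_C7 Pool.Agent.Z700.f_PC
theorem f_BIL : S_BIL := t_BIL f_PR f_LB f_C7
theorem f_T8 : S_T8 := Pool.Agent.Y655.Z17N.t_T8 f_ORI
theorem f_HALF : S_HALF := Pool.Agent.Y655.Z17N.t_HALF
theorem f_LEAF : S_LEAF := Pool.Agent.Y67.N.t_LEAF
theorem f_RHQ : S_RHQ := Pool.Agent.Y434.N.t_RHQ f_HALF f_LEAF
theorem f_GENb3 : S_GENb3 := Pool.Agent.Y98.ZN.t_GENb3
theorem f_GEN3 : S_GEN3 := Pool.Agent.Y614.Z17.t_GEN3 f_GENb3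
theorem f_FIXT : S_FIXT := Pool.Agent.Y614.Z17.t_FIXT
theorem f_IND3S : S_IND3S := Pool.Agent.Y655.N3.t_IND3S f_BIL f_T8 f_RHQ f_GEN3 f_FIXT
theorem f_GENbQ : S_GENbQ := Pool.Agent.Z125.N.t_GENbQ
theorem f_GENQ : S_GENQ := Pool.Agent.Z125.N.t_GENQ f_GENbQ
theorem f_SQA : S_SQA := Pool.Agent.Y100.Z17N.t_SQA
theorem f_SQB : S_SQB := Pool.Agent.Y349.ZN.t_SQB
theorem f_SQC : S_SQC := Pool.Agent.Y100.Z17N.t_SQC
theorem f_FIXQ : S_FIXQ := Pool.Agent.Y961.BS.t_FIXQ f_SQA f_SQB f_SQC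
theorem f_INDQS : S_INDQS := Pool.Agent.Y929.NQ.t_INDQS f_BIL f_IND3S f_GENQ f_FIXQ

end Pool.Agent.Y17.N
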