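import Pool.Agent.Y17.N.DefN
import Pool.Agent.Y687.N.MainN
import Pool.Agent.Z701.Fin

/-!
# Twists of `X_0(14)` by `- q m`: assembly
-/

set_option autoImplicit false
set_option linter.style.haveILetI false

open Finset

namespace Pool.Agent.Y17.N

open Pool.Agent.Z700 (pr Yd lres xres xrt vec sq7)
open Pool.Agent.Y687 (WB cnt SS_facts cnt_E14 cnt_twistD)
open Pool.Agent.Y687.N (NegP RtZ xrZ Def xrZ_neg neg_facts WB_neg RtZ_iff)
open Pool.Agent.W97.MT (ap E14)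

theorem sq7_sq {p : ℕ} (hp : Sp p) : sq7 p ^ 2 = (p : ZMod 7) := by
  have h : (p : ZMod 7) = ((p % 7 : ℕ) : ZMod 7) := by rw [ZMod.natCast_mod]
  rw [h]
  unfold Pool.Agent.Z700.sq7
  rcases hp.2.2 with h1 | h1 | h1 <;> rw [h1] <;> decide

theorem sq7_ne (p : ℕ) : sq7 p ≠ 0 := by
  unfold Pool.Agent.Z700.sq7
  split_ifs <;> decide

theorem cq_sq {q : ℕ} (hq : Qr q) : cq q ^ 2 = -(q : ZMod 7) := by
  have h : (q : ZMod 7) = ((q % 7 : ℕ) : ZMod 7) := by rw [ZMod.natCast_mod]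
  rw [h]
  unfold cq
  rcases hq.2.2 with h1 | h1 | h1 <;> rw [h1] <;> decide

theorem cq_ne (q : ℕ) : cq q ≠ 0 := by
  unfold cq
  split_ifs <;> decide

theorem bq_sq {q : ℕ} {P : Finset ℕ} (hq : Qr q) (hP : ∀ p ∈ P, Sp p) :
    bq q P ^ 2 = -((q * pr P : ℕ) : ZMod 7) := by
  unfold bq Pool.Agent.Z700.pr
  rw [mul_pow, cq_sq hq, ← Finset.prod_pow, Finset.prod_congr rfl fun p hp => sq7_sq (hP p hp)]
  push_cast
  ring

theorem bq_ne (q : ℕ) (P : Finset ℕ) : bq q P ≠ 0 := by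
  haveI : Fact (Nat.Prime 7) := ⟨by norm_num⟩
  unfold bq
  exact mul_ne_zero (cq_ne q) (Finset.prod_ne_zero_iff.2 fun p _ => sq7_ne p)

/-- the diagonal parts agree modulo two -/
theorem diag_iff {q p : ℕ} (hp : Sp p) (hq : Qr q) :
    Odd (xrZ (-q) p) ↔ Odd (xres p + eQ q p) := by
  rw [xrZ_neg hp hq.1 (by have := hq.2.1; omega),
    Pool.Agent.Z701.x_eq Pool.Agent.Z700.f_SYM Pool.Agent.Z701.f_DIAG Pool.Agent.Z701.f_IND
      Pool.Agent.Y655.Z7.t_RTE hp]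
  have hrec : jacobiSym p q = jacobiSym q p :=
    jacobiSym.quadratic_reciprocity_one_mod_four (by have := hp.2.1; omega)
      (by rw [Nat.odd_iff]; have := hq.2.1; omega)
  have e : lres p q = eQ q p := by
    unfold Pool.Agent.Z700.lres eQ
    rw [hrec]
    simp only [or_self]
  rw [e]

theorem det_iff {q : ℕ} {P : Finset ℕ} (hq : Qr q) (hP : ∀ p ∈ P, Sp p) :
    Odd (Yd lres (xrZ (-q)) P) ↔ Odd (Yd lres (fun p => xres p + eQ q p) P) :=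
  Pool.Agent.Z701.Yd_mod2 fun p hp => diag_iff (hP p hp) hq

/-- the definite side -/
theorem exists_g (hb : S_BIL) (ht : S_T8) (hi : S_INDQS) {q : ℕ} {P : Finset ℕ} (hq : Qr q)
    (hP : ∀ p ∈ P, Sp p) (hodd : Odd (Yd lres (xrZ (-q)) P)) :
    ∃ g y : ℤ, g = 2 ^ P.card * y ∧ Odd y ∧ Def (q * pr P) g := by
  obtain ⟨-, hG, h7, -, -⟩ := neg_facts hP hq
  obtain ⟨y, h1, h2⟩ := hi q P hq hP
  exact ⟨_, y, h1, h2.2 ((det_iff hq hP).1 hodd),
    def_of hb ht hG.sq hG.h8 h7 (bq_ne q P) (bq_sq hq hP)⟩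

theorem weak (hb : S_BIL) (ht : S_T8) (hi : S_INDQS) {q : ℕ} {P : Finset ℕ} (hq : Qr q)
    (hP : ∀ p ∈ P, Sp p) (hodd : Odd (Yd lres (xrZ (-q)) P)) :
    WB ((pr P : ℤ) * (-(q : ℤ))) := by
  obtain ⟨g, y, h1, h2, h3⟩ := exists_g hb ht hi hq hP hodd
  refine WB_neg hP hq hodd ⟨g, ?_, h3⟩
  rw [h1]
  exact mul_ne_zero (by positivity) (by rintro rfl; simp at h2)

/-- the number of points modulo eight -/
theorem rtz_iff {q p : ℕ} (hp : Sp p) (hq : Qr q) :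
    RtZ (-(q : ℤ)) p ↔ ¬ 8 ∣ cnt (5805 * (-(q : ℤ)) ^ 2) (-285714 * (-(q : ℤ)) ^ 3) p + 1 := by
  haveI : Fact p.Prime := ⟨hp.1⟩
  have p8 := hp.2.1
  have q8 := hq.2.1
  have p3 : p ≠ 3 := by rintro rfl; omega
  have hpq : ¬ p ∣ (-(q : ℤ)).natAbs := by
    rw [Int.natAbs_neg, Int.natAbs_natCast]
    intro h
    have := (Nat.prime_dvd_prime_iff_eq hp.1 hq.1).1 h
    omega
  have hm : ((-(q : ℤ) : ℤ) : ZMod p) ≠ 0 := by
    intro h
    rw [ZMod.intCast_zmod_eq_zero_iff_dvd] at h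
    exact hpq (Int.natCast_dvd.1 h)
  obtain ⟨-, k, hk⟩ := SS_facts p hp.1 hp.2.1 hp.2.2
  have h1 := cnt_twistD 5805 (-285714) (D := -(q : ℤ)) (by omega) p (by omega) hpq
  have h2 := cnt_E14 p hp.1 (by omega) p3
  have h3' := Pool.Agent.Y655.Z7.t_RTE p hp.1 hp.2.1 hp.2.2
  rw [Pool.Agent.Y614.Z.NE_eq] at h3'
  have h3 : Pool.Agent.Y687.Rt p 1 ↔ ¬ 8 ∣ cnt 5805 (-285714) p + 1 := h3'
  have h4 := RtZ_iff hp hm
  have h5 : quadraticChar (ZMod p) (((-(q : ℤ) : ℤ)) : ZMod p) = jacobiSym p (-(q : ℤ)).natAbs := by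
    have h6 : quadraticChar (ZMod p) (((-(q : ℤ) : ℤ)) : ZMod p) = legendreSym p (-(q : ℤ)) := rfl
    rw [h6, jacobiSym.legendreSym.to_jacobiSym]
    exact Pool.Agent.Y687.jacD (by omega) (by omega)
  have h6 := quadraticChar_one_iff_isSquare hm
  rw [h5] at h6
  rw [h4, h3, ← h6]
  have hj : jacobiSym p (-(q : ℤ)).natAbs = 1 ∨ jacobiSym p (-(q : ℤ)).natAbs = -1 := by
    refine jacobiSym.eq_one_or_neg_one ?_
    rw [Int.gcd_natCast_natCast]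
    exact (Nat.Prime.coprime_iff_not_dvd hp.1).2 hpq
  rcases hj with hj | hj
  · rw [hj] at h1
    rw [hj]
    simp only [iff_true]
    omega
  · rw [hj] at h1
    rw [hj]
    have e1 : ¬ ((-1 : ℤ) = 1) := by norm_num
    simp only [e1, iff_false, not_not]
    omega

end Pool.Agent.Y17.N
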