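import Pool.Agent.Y17.N.Defs3

/-!
# The relation of the definite side
-/

set_option autoImplicit false

namespace Pool.Agent.Y17.N

open Finset

open scoped Matrix
open Pool.Agent.Z700 (V3 vec cp cp7 Ln n0 ep sgl pr sq7)

theorem two7 : (2 : ZMod 7) ≠ 0 := by decide

theorem sb_eq {n : ℕ} (h8 : n % 8 = 3) :
    SB n n (n : ZMod 7) 1 =
      ∑ T ∈ (range n).filter (fun T => Odd T ∧ 7 ∣ T), Pool.Agent.Z700.loc n (4 * (n - T) * T) := by
  unfold SB
  symm
  refine sum_bij' (fun T _ => (n : ℤ) - 2 * T) (fun b _ => (((n : ℤ) - b) / 2).toNat) ?_ ?_ ?_ ?_ ?_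
  · intro T hT
    rw [mem_filter, mem_range] at hT
    obtain ⟨h1, ⟨k, hk⟩, ⟨l, hl⟩⟩ := hT
    have hn0 : (0 : ℤ) < n := by omega
    have hT0 : (0 : ℤ) < T := by omega
    have hTn : (T : ℤ) < n := by exact_mod_cast h1
    have hsq : ((n : ℤ) - 2 * T) ^ 2 < (n : ℤ) * n := by nlinarith
    rw [mem_filter, mem_Ioo]
    refine ⟨⟨?_, ?_⟩, ?_, ?_, hsq⟩
    · nlinarith
    · nlinarith
    · omega
    · push_cast
      have h7' : ((T : ℕ) : ZMod 7) = 0 := (ZMod.natCast_eq_zero_iff T 7).2 ⟨l, hl⟩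
      rw [h7']
      ring
  · intro b hb
    rw [mem_filter, mem_Ioo] at hb
    obtain ⟨_, h4, hb7, hsq⟩ := hb
    have hn0 : (0 : ℤ) < n := by omega
    have hb1 : b < n := by nlinarith
    have hb2 : -(n : ℤ) < b := by nlinarith
    have h7b : (7 : ℤ) ∣ (n : ℤ) - b := by
      have : (((n : ℤ) - b : ℤ) : ZMod 7) = 0 := by
        push_cast
        rw [hb7]
        ring
      exact (ZMod.intCast_zmod_eq_zero_iff_dvd _ 7).1 this
    obtain ⟨k, hk⟩ := h4
    obtain ⟨l, hl⟩ := h7b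
    rw [mem_filter, mem_range]
    have h8' : (n : ℤ) % 8 = 3 := by omega
    refine ⟨by omega, ?_, ?_⟩
    · rw [Nat.odd_iff]
      omega
    · omega
  · intro T hT
    show (((n : ℤ) - ((n : ℤ) - 2 * T)) / 2).toNat = T
    omega
  · intro b hb
    rw [mem_filter, mem_Ioo] at hb
    obtain ⟨_, h4, hb7, hsq⟩ := hb
    have hn0 : (0 : ℤ) < n := by omega
    have hb1 : b < n := by nlinarith
    obtain ⟨k, hk⟩ := h4
    have h8' : (n : ℤ) % 8 = 3 := by omega
    omega
  · intro T hT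
    rw [mem_filter, mem_range] at hT
    obtain ⟨h1, _, _⟩ := hT
    congr 1
    have e : (n : ℤ) * n - ((n : ℤ) - 2 * T) ^ 2 = ((4 * (n - T) * T : ℕ) : ℤ) := by
      push_cast [Nat.cast_sub h1.le]
      ring
    rw [e, Int.toNat_natCast]

/-- DEF: the relation between the two definite sums -/
theorem def_of (hb : S_BIL) (ht : S_T8) {n : ℕ} (hsq : Squarefree n) (h8 : n % 8 = 3)
    (h7 : ¬ 7 ∣ n) {β : ZMod 7} (hβ : β ≠ 0) (hβ2 : β ^ 2 = -(n : ZMod 7)) :
    ((vec n).card : ℤ) ^ 2 = 64 * (g0 n β) ^ 2 +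
      384 * ∑ T ∈ (range n).filter (fun T => Odd T ∧ 7 ∣ T),
        Pool.Agent.Z700.loc n (4 * (n - T) * T) := by
  have _ : Fact (Nat.Prime 7) := ⟨by norm_num⟩
  have h8' : (n : ℤ) % 8 = 3 := by omega
  have hn7 : (n : ZMod 7) ≠ 0 := fun h => h7 ((ZMod.natCast_eq_zero_iff n 7).1 h)
  have k1 := hb n n hsq h8 h8 β β hβ hβ hβ2 hβ2 1 (Or.inl rfl) (by
    intro b h4 hb7 hbn
    have h1 : (b - n) * (b + n) = 0 := by linear_combination hbn
    rcases mul_eq_zero.1 h1 with h2 | h2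
    · have h3 : b = n := by linarith
      subst h3
      obtain ⟨k, hk⟩ := h4
      omega
    · have h3 : b = -(n : ℤ) := by linarith
      subst h3
      push_cast at hb7
      have h4 : (n : ZMod 7) = β ^ 2 := by
        have := congrArg Neg.neg hb7
        rw [neg_neg, neg_neg] at this
        rw [this]; ring
      rw [hβ2] at h4
      have h5 : (2 : ZMod 7) * n = 0 := by linear_combination h4
      rcases mul_eq_zero.1 h5 with h6 | h6
      · exact two7 h6
      · exact hn7 h6)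
  have k2 : -(β * β) = (n : ZMod 7) := by
    rw [← pow_two, hβ2, neg_neg]
  rw [k2, sb_eq h8] at k1
  have k3 := ht n h8' β hβ (by rw [hβ2]; push_cast; rfl)
  rw [k3]
  linear_combination 64 * k1

end Pool.Agent.Y17.N
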